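import Pool.Agent.H88.Rz3

open MeasureTheory Pool.Agent.H88.Rz

theorem Pool.Agent.Results.MP_b30265_an.Counter.result :
    ∃ (lam : ℕ → ℕ) (a b : ℕ → ℂ) (φ : ℕ → ℝ) (μa μb νa νb : Measure T),
      0 < lam 0 ∧ (∀ n, 3 * lam n ≤ lam (n + 1)) ∧ (∀ n, ‖a n‖ < 1) ∧ (∀ n, ‖b n‖ < 1) ∧
      IsRiesz lam a 0 μa ∧ IsRiesz lam b 0 μb ∧ IsRiesz lam a φ νa ∧ IsRiesz lam b φ νb ∧
      μa ≪ μb ∧ ¬ νa ≪ νb := by
  have n1 : ∀ n, ‖co (fun j => 1 - dl j - dl j) (fun j => 1 - dl j) n‖ < 1 := fun n => by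
    have := dl_bd (n / 2)
    unfold co
    split_ifs <;> rw [Complex.norm_real, Real.norm_eq_abs, abs_lt] <;> constructor <;> linarith
  have n2 : ∀ n, ‖co (fun j => 1 - dl j) (fun j => 1 - dl j) n‖ < 1 := fun n => by
    have := dl_bd (n / 2)
    unfold co
    split_ifs <;> rw [Complex.norm_real, Real.norm_eq_abs, abs_lt] <;> constructor <;> linarith
  have z : ph 0 = 0 := funext fun n => by simp [ph]
  obtain ⟨μa, a1, _⟩ := exist l _ (ph 0) one_pos l3 fun n => (n1 n).le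
  obtain ⟨μb, b1, _⟩ := exist l _ (ph 0) one_pos l3 fun n => (n2 n).le
  obtain ⟨νa, c1, _⟩ := exist l _ (ph Real.pi) one_pos l3 fun n => (n1 n).le
  obtain ⟨νb, d1, _⟩ := exist l _ (ph Real.pi) one_pos l3 fun n => (n2 n).le
  refine ⟨l, _, _, ph Real.pi, μa, μb, νa, νb, one_pos, l3, n1, n2, z ▸ a1, z ▸ b1, c1, d1, ?_, ?_⟩
  · have a := toH (ε := 1) (by simp) a1
    have b := toH (ε := 1) (by simp) b1
    simp only [one_mul] at a b
    exact ac a b
  · have a := toH (ε := -1) (by simp) c1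
    have b := toH (ε := -1) (by simp) d1
    simp only [neg_one_mul] at a b
    exact sing a b
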